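import Pool.Agent.H16.TK.Stmt2

/-! LUN: the direction is the only one with big components of all ranks `r i`. -/

set_option autoImplicit false

open Set

namespace Pool.Agent.TK

namespace H90

/-- agreement of two structures on a set of vertices -/
lemma cd_agree {C : Type} {M N : St C} {E : Set ℕ}
    (h : ∀ u ∈ E, ∀ v ∈ E, M.1 u v = N.1 u v) (hE : Cd M E) : Cd N E := by
  refine ⟨hE.1, ?_⟩
  intro u hu v hv
  obtain ⟨q1, q2⟩ := hE.2 u hu v hv
  have : ∀ v, Relation.ReflTransGen (fun x y => M.1 x y = true ∧ y ∉ Eᶜ) u v →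
      v ∈ E ∧ Relation.ReflTransGen (fun x y => N.1 x y = true ∧ y ∉ Eᶜ) u v := by
    intro v hv
    induction hv with
    | refl => exact ⟨hu, Relation.ReflTransGen.refl⟩
    | tail hb hs ih =>
      rename_i p q
      have hq : q ∈ E := by simpa using hs.2
      exact ⟨hq, ih.2.tail ⟨by rw [← h p ih.1 q hq]; exact hs.1, hs.2⟩⟩
  exact ⟨q1, (this v q2).2⟩

/-- flaps of structures which agree around them -/
lemma fi_agree {C : Type} {M N : St C} {a : List ℕ} {E : Set ℕ}
    (h : ∀ u ∈ E ∪ ms a, ∀ v ∈ E ∪ ms a, M.1 u v = N.1 u v)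
    (h' : ∀ l : List ℕ, (∀ u ∈ l, u ∈ E ∪ ms a) → M.2 l = N.2 l) : FI M a E N a E := by
  refine ⟨id, rfl, Set.bijOn_id _, ?_⟩
  intro x hx
  have key : ∀ w ∈ a.zip a ++ x.map (fun z => (z, id z)), w.1 = w.2 ∧ w.1 ∈ E ∪ ms a := by
    intro w hw
    rcases List.mem_append.1 hw with hw | hw
    · rw [← dg_eq_zip] at hw
      obtain ⟨e1, e2⟩ := mem_dg.1 hw
      exact ⟨e1, Or.inr e2⟩
    · obtain ⟨u, hu, rfl⟩ := List.mem_map.1 hw
      exact ⟨rfl, Or.inl (hx u hu)⟩
  refine ⟨?_, ?_, ?_⟩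
  · intro u hu v hv
    rw [(key u hu).1, (key v hv).1]
  · intro u hu v hv
    rw [h _ (key u hu).2 _ (key v hv).2, (key u hu).1, (key v hv).1]
  · intro q hq
    rw [← List.map_congr_left (fun z hz => (key z (hq z hz)).1)]
    apply h'
    intro u hu
    obtain ⟨w, hw, rfl⟩ := List.mem_map.1 hu
    exact (key w (hq w hw)).2

/-- two replacements agree outside the components in which they differ -/
lemma repl_agree {C : Type} {c0 : C} (hRPF : RPF C c0) {M : St C} {a : ℕ → List ℕ}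
    {D : ℕ → Set ℕ} {R : ℕ → St C} {y s : Set ℕ} (hy : RD c0 M a D R y) (hs : RD c0 M a D R s)
    (hsy : s ⊆ y) {W : Set ℕ} (hW : ∀ i ∈ y, i ∉ s → D i ⊆ W) :
    (∀ u, u ∉ W → ∀ v, v ∉ W → (repl c0 M a D R y).1 u v = (repl c0 M a D R s).1 u v) ∧
    ∀ l : List ℕ, (∀ u ∈ l, u ∉ W) → (repl c0 M a D R y).2 l = (repl c0 M a D R s).2 l := by
  obtain ⟨p1, p2, p3, p4, p5, p6, _⟩ := hRPF M a D R y hy
  obtain ⟨q1, q2, q3, q4, q5, q6, _⟩ := hRPF M a D R s hs
  have hin : ∀ u, u ∉ W → ∀ i ∈ y, u ∈ D i → i ∈ s := by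
    intro u hu i hi hui
    by_contra his
    exact hu (hW i hi his hui)
  have key : ∀ u, u ∉ W → ∀ v, v ∉ W → ∀ i ∈ y, u ∈ D i →
      (repl c0 M a D R y).1 u v = (repl c0 M a D R s).1 u v := by
    intro u hu v hv i hi hui
    have his := hin u hu i hi hui
    by_cases hvD : v ∈ D i ∪ ms (a i)
    · rw [p4 i hi u (Or.inl hui) v hvD, q4 i his u (Or.inl hui) v hvD]
    · have e1 : (repl c0 M a D R y).1 u v = false := by
        rw [← Bool.not_eq_true]
        intro hE
        exact hvD (Or.inr ((p6 i hi).nb p1 ⟨fun h => hvD (Or.inl h), u, hui, by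
          rw [p1.1]; exact hE⟩))
      have e2 : (repl c0 M a D R s).1 u v = false := by
        rw [← Bool.not_eq_true]
        intro hE
        exact hvD (Or.inr ((q6 i his).nb q1 ⟨fun h => hvD (Or.inl h), u, hui, by
          rw [q1.1]; exact hE⟩))
      rw [e1, e2]
  constructor
  · intro u hu v hv
    by_cases h1 : ∃ i ∈ y, u ∈ D i
    · obtain ⟨i, hi, hui⟩ := h1
      exact key u hu v hv i hi hui
    by_cases h2 : ∃ i ∈ y, v ∈ D i
    · obtain ⟨i, hi, hvi⟩ := h2
      rw [p1.1, q1.1 u v]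
      exact key v hv u hu i hi hvi
    push Not at h1 h2
    rw [p2 u v h1 h2, q2 u v (fun i hi => h1 i (hsy hi)) (fun i hi => h2 i (hsy hi))]
  · intro l hl
    by_cases h1 : ∃ i ∈ y, ∃ u ∈ l, u ∈ D i
    · obtain ⟨i, hi, u, hul, hui⟩ := h1
      have his := hin u (hl u hul) i hi hui
      by_cases hall : ∀ v ∈ l, v ∈ D i ∪ ms (a i)
      · rw [p5 i hi l hall, q5 i his l hall]
      · push Not at hall
        obtain ⟨v, hvl, hv⟩ := hall
        have huv : u ≠ v := by
          rintro rfl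
          exact hv (Or.inl hui)
        have e1 : (repl c0 M a D R y).2 l = c0 := by
          by_contra hne
          have := p1.2.2 l hne u hul v hvl huv
          exact hv (Or.inr ((p6 i hi).nb p1 ⟨fun h => hv (Or.inl h), u, hui, by
            rw [p1.1]; exact this⟩))
        have e2 : (repl c0 M a D R s).2 l = c0 := by
          by_contra hne
          have := q1.2.2 l hne u hul v hvl huv
          exact hv (Or.inr ((q6 i his).nb q1 ⟨fun h => hv (Or.inl h), u, hui, by
            rw [q1.1]; exact this⟩))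
        rw [e1, e2]
    · push Not at h1
      rw [p3 l (fun u hu i hi => h1 i hi u hu), q3 l (fun u hu i hi => h1 i (hsy hi) u hu)]

lemma RD_mono {C : Type} {c0 : C} {M : St C} {a : ℕ → List ℕ} {D : ℕ → Set ℕ} {R : ℕ → St C}
    (h : RD c0 M a D R univ) (y : Set ℕ) : RD c0 M a D R y :=
  ⟨h.val, fun i _ => h.valR i trivial, fun i _ => h.cpM i trivial, fun i _ => h.cpR i trivial,
    fun i _ => h.pi i trivial, fun i _ j _ => h.disj i trivial j trivial,
    fun i _ j _ => h.disjA i trivial j trivial⟩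

end H90

theorem pf_LUN {C : Type} [MeasurableSpace C] {c0 : C} (hRPF : RPF C c0) (hMONO : MONO C c0)
    (hNFA : NFA C c0) (hLDR : LDR C c0) (hLRF : LRF C c0) : LUN C c0 := by
  classical
  intro b X M w A S k a D R r hLD y w' hy hw' hww'
  have hRDu := hLDR b X M w A S k a D R r hLD
  have hRD : ∀ y, RD c0 M a D R y := H90.RD_mono hRDu
  obtain ⟨hNv, hNg, hNl, _, _, hNc, hNF⟩ := hRPF M a D R y (hRD y)
  have hMv : Valid c0 M := hLD.hyp.val M hLD.hM
  obtain ⟨hN1, _, hN3⟩ := hNFA M hMv w (Dm M w) A S hLD.cs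
  -- monotonicity of `w (A n)`
  have hdec : ∀ m n, m ≤ n → w (A n) ⊆ w (A m) := by
    intro m n hmn
    induction hmn with
    | refl => exact fun _ h => h
    | step _ ih => exact Set.Subset.trans (hN1 _).2.2.2.2.2.2.1 ih
  have hBn : ∀ B : Set ℕ, B.Finite → ∃ n, ∀ m, n ≤ m → Disjoint B (w (A m)) := by
    intro B hB
    choose g hg using hN3
    obtain ⟨n, hn⟩ := (hB.image g).bddAbove
    refine ⟨n, fun m hm => ?_⟩
    rw [Set.disjoint_left]
    intro v hv hvm
    exact hg v (hdec _ _ (le_trans (hn (Set.mem_image_of_mem g hv)) hm) hvm)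
  have hkid : ∀ i, i ≤ k i := fun i => hLD.mono.id_le i
  have hrle : ∀ i j, i ≤ j → RLe C (r i) (r j) := by
    intro i j hij
    induction hij with
    | refl => exact RLe.refl _
    | step _ ih => exact ih.trans (hLD.rle _)
  have hom : ∀ i, RLe C om (r i) := fun i =>
    ((((RLe.lim om).trans (RLe.lim _)).trans hLD.hyp.base).trans hLD.rb).trans
      (hrle 0 i (Nat.zero_le _))
  refine ⟨?_, ?_⟩
  · rintro B hB i ⟨a', ha', hsm⟩
    obtain ⟨n, hn⟩ := hBn B hB
    obtain ⟨j, hj, hjn⟩ := hy.exists_gt (max n i)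
    have hnj : n ≤ k j := le_trans (le_trans (le_max_left _ _) hjn.le) (hkid j)
    have hDj : D j ⊆ w' B := Set.Subset.trans (hLD.lev j).2.1 (hww' B hB (k j) (hn _ hnj))
    have h1 := hMONO (r i) (hom i) (repl c0 M a D R y) a' (a j) (w' B) (D j) hNv ha' (hNc j hj)
      hDj hsm
    have h2 := (h1.fi (hNF j hj)).rank (hrle i j (le_trans (le_max_right _ _) hjn.le))
    exact hLD.big j h2
  · intro w'' hw'' hbig B hB
    by_contra hne
    obtain ⟨l, hl⟩ := hBn B hB
    have hBl : Disjoint B (w (A l)) := hl l le_rfl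
    have hAl : (A l).Finite := (hN1 l).1
    have hwAl : IsCp M (A l) (w (A l)) := hLD.cs.dir.1 (A l) hAl
    have hB2 : (B ∪ A l).Finite := hB.union hAl
    set Dx := w'' (B ∪ A l) with hDx
    have hDxc : IsCp (repl c0 M a D R y) (B ∪ A l) Dx := hw''.1 _ hB2
    have hDxB : Dx ⊆ w'' B := hw''.2 B (B ∪ A l) hB2 Set.subset_union_left
    have hdis : Disjoint (w'' B) (w' B) := by
      rw [Set.disjoint_left]
      intro x hx hx'
      exact hne ((hw''.1 B hB).eq_of_inter hNv (hw'.1 B hB) hx hx')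
    have hDxw : ∀ x ∈ Dx, x ∉ w (A l) := by
      intro x hx hx'
      exact Set.disjoint_left.1 hdis (hDxB hx) (hww' B hB l hBl hx')
    set s : Set ℕ := {i | i ∈ y ∧ k i < l} with hs
    have hsy : s ⊆ y := fun i hi => hi.1
    have hW : ∀ i ∈ y, i ∉ s → D i ⊆ w (A l) := by
      intro i hi his
      have : l ≤ k i := by
        by_contra hlt
        exact his ⟨hi, not_le.1 hlt⟩
      exact Set.Subset.trans (hLD.lev i).2.1 (hdec _ _ this)
    obtain ⟨g1, g2⟩ := H90.repl_agree hRPF (hRD y) (hRD s) hsy hW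
    obtain ⟨hsv, _⟩ := hRPF M a D R s (hRD s)
    obtain ⟨f1, f2, f3⟩ := (isCp_iff hNv).1 hDxc
    have hDxs : IsCp (repl c0 M a D R s) (B ∪ A l) Dx := by
      rw [isCp_iff hsv]
      refine ⟨H90.cd_agree (fun u hu v hv => g1 u (hDxw u hu) v (hDxw v hv)) f1, f2, ?_⟩
      rintro u ⟨hu, t, ht, hut⟩
      by_cases huw : u ∈ w (A l)
      · exfalso
        have h1 : t ∈ Nb (repl c0 M a D R s) (w (A l)) :=
          ⟨hDxw t ht, u, huw, by rw [hsv.1]; exact hut⟩
        rw [(hLRF b X M w A S k a D R r hLD s).2.1 l] at h1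
        exact Set.disjoint_left.1 f2 ht (Or.inr ((hN1 l).2.2.2.2.2.2.2.2.2 h1))
      · apply f3
        refine ⟨hu, t, ht, ?_⟩
        rw [g1 u huw t (hDxw t ht)]
        exact hut
    obtain ⟨a'', ha'', _, _⟩ := exists_list hB2
    obtain ⟨v, hv, hvD⟩ := hDxs
    have hva : v ∉ a'' := by
      intro h
      apply hv
      rw [← ha'']
      exact h
    have hsmall := hLD.rs l s (fun j hj => le_trans (hkid j) hj.2.le) a'' v hva
    rw [ha'', ← hvD] at hsmall
    have hout : ∀ u ∈ Dx ∪ ms a'', u ∉ w (A l) := by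
      rintro u (hu | hu)
      · exact hDxw u hu
      · rw [ha''] at hu
        rcases hu with hu | hu
        · exact fun h => Set.disjoint_left.1 hBl hu h
        · exact fun h => Set.disjoint_left.1 hwAl.disj h hu
    have hFI : FI (repl c0 M a D R s) a'' Dx (repl c0 M a D R y) a'' Dx := by
      apply H90.fi_agree
      · intro u hu v hv
        exact (g1 u (hout u hu) v (hout v hv)).symm
      · intro l' hl'
        exact (g2 l' (fun u hu => hout u (hl' u hu))).symm
    exact hbig (B ∪ A l) hB2 (l + 1) ⟨a'', by rw [ha'']; exact hDxc, hsmall.fi hFI⟩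

end Pool.Agent.TK
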