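import Pool.Agent.H16.TK.Stmt2

/-! TKS: an infinitely dominated direction gives a subdivision of the infinite complete graph. -/

set_option autoImplicit false

open Set

namespace Pool.Agent.TK

namespace H90

lemma gr_adj {C : Type} {c0 : C} {M : St C} (hM : Valid c0 M) {u v : ℕ}
    (h : M.1 u v = true) : (gr M).Adj u v := by
  have hne : u ≠ v := by
    rintro rfl
    rw [hM.2.1 u] at h
    exact Bool.false_ne_true h
  exact ⟨hne, Or.inl h⟩

lemma walk_of_conn {C : Type} {c0 : C} {M : St C} (hM : Valid c0 M) {A : Set ℕ} {u v : ℕ}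
    (h : Conn M A u v) : ∃ p : (gr M).Walk u v, ∀ x ∈ p.support, x ∉ A := by
  obtain ⟨h1, h2⟩ := h
  induction h2 with
  | refl => exact ⟨SimpleGraph.Walk.nil, by simpa using h1⟩
  | tail hb hs ih =>
    obtain ⟨p, hp⟩ := ih
    refine ⟨p.concat (gr_adj hM hs.1), ?_⟩
    intro x hx
    rw [SimpleGraph.Walk.support_concat, List.mem_append] at hx
    rcases hx with hx | hx
    · exact hp x hx
    · rw [List.mem_singleton] at hx
      rw [hx]
      exact hs.2

/-- the step: a new dominating vertex and disjoint paths to it -/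
lemma tks_step {C : Type} {c0 : C} {M : St C} (hM : Valid c0 M) {w : Set ℕ → Set ℕ}
    (hw : IsDir M w) (F : Set ℕ) (hF : F.Finite) (b : ℕ) (hb : b ∈ Dm M w) (_ : b ∉ F)
    (T : Finset ℕ) : (∀ x ∈ T, x ∈ Dm M w ∧ x ∈ F) →
    ∃ I : ℕ → Set ℕ, (∀ x, (I x).Finite) ∧
      (∀ x ∈ T, Disjoint (I x) (insert b F) ∧ ∃ p : (gr M).Walk x b, p.IsPath ∧
        ∀ v ∈ p.support, v = x ∨ v = b ∨ v ∈ I x) ∧
      ∀ x ∈ T, ∀ y ∈ T, x ≠ y → Disjoint (I x) (I y) := by
  classical
  induction T using Finset.induction_on with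
  | empty =>
    intro _
    exact ⟨fun _ => ∅, fun _ => Set.finite_empty, by simp, by simp⟩
  | insert x T hxT ih =>
    intro hT
    obtain ⟨I, hI1, hI2, hI3⟩ := ih (fun y hy => hT y (Finset.mem_insert_of_mem hy))
    obtain ⟨hxD, hxF⟩ := hT x (Finset.mem_insert_self _ _)
    set U : Set ℕ := ⋃ y ∈ T, I y with hU
    have hUfin : U.Finite := Set.Finite.biUnion (Finset.finite_toSet T) (fun y _ => hI1 y)
    set A : Set ℕ := insert b F ∪ U with hA
    have hAfin : A.Finite := (hF.insert b).union hUfin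
    have hxA : x ∈ A := Or.inl (Or.inr hxF)
    have hbA : b ∈ A := Or.inl (Or.inl rfl)
    obtain ⟨_, s, hs, hxs⟩ := hxD A hAfin hxA
    obtain ⟨_, t, ht, hbt⟩ := hb A hAfin hbA
    have hcp := hw.1 A hAfin
    have hst : Conn M A s t := by
      have := hcp.eq_cp hM hs
      rw [this] at ht
      exact ht
    obtain ⟨p, hp⟩ := walk_of_conn hM hst
    set W : (gr M).Walk x b := SimpleGraph.Walk.cons (gr_adj hM hxs)
      (p.concat (gr_adj hM (by rw [hM.1]; exact hbt))) with hW
    have hWs : ∀ v ∈ W.support, v = x ∨ v = b ∨ v ∈ p.support := by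
      intro v hv
      rw [hW, SimpleGraph.Walk.support_cons, List.mem_cons, SimpleGraph.Walk.support_concat,
        List.mem_append, List.mem_singleton] at hv
      tauto
    refine ⟨Function.update I x {v | v ∈ p.support}, ?_, ?_, ?_⟩
    · intro y
      by_cases hy : y = x
      · rw [hy, Function.update_self]
        exact List.finite_toSet _
      · rw [Function.update_of_ne hy]
        exact hI1 y
    · intro y hy
      rcases Finset.mem_insert.1 hy with rfl | hy
      · rw [Function.update_self]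
        refine ⟨?_, ?_⟩
        · rw [Set.disjoint_left]
          intro v hv hv'
          exact hp v hv (Or.inl hv')
        · refine ⟨(W.toPath : (gr M).Walk y b), W.toPath.2, ?_⟩
          intro v hv
          exact hWs v (SimpleGraph.Walk.support_toPath_subset_support W hv)
      · have hyx : y ≠ x := fun h => hxT (h ▸ hy)
        rw [Function.update_of_ne hyx]
        exact hI2 y hy
    · intro y hy0 z hz0 hyz
      rcases Finset.mem_insert.1 hy0 with h | hy
      · rcases Finset.mem_insert.1 hz0 with h' | hz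
        · exact absurd (h.trans h'.symm) hyz
        · have hzx : z ≠ x := fun h' => hyz (h.trans h'.symm)
          rw [h, Function.update_self, Function.update_of_ne hzx, Set.disjoint_left]
          intro v hv hv'
          exact hp v hv (Or.inr (Set.mem_biUnion (Finset.mem_coe.2 hz) hv'))
      · have hyx : y ≠ x := fun h => hxT (h ▸ hy)
        rcases Finset.mem_insert.1 hz0 with h' | hz
        · rw [h', Function.update_self, Function.update_of_ne hyx, Set.disjoint_right]
          intro v hv hv'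
          exact hp v hv (Or.inr (Set.mem_biUnion (Finset.mem_coe.2 hy) hv'))
        · have hzx : z ≠ x := fun h => hxT (h ▸ hz)
          rw [Function.update_of_ne hyx, Function.update_of_ne hzx]
          exact hI3 y hy z hz hyz

lemma tks_step' {C : Type} {c0 : C} {M : St C} (hM : Valid c0 M) {w : Set ℕ → Set ℕ}
    (hw : IsDir M w) (hinf : (Dm M w).Infinite) (F : Set ℕ) (hF : F.Finite) :
    ∃ (b : ℕ) (I : ℕ → Set ℕ), b ∈ Dm M w ∧ b ∉ F ∧ (∀ x, (I x).Finite) ∧
      (∀ x ∈ Dm M w ∩ F, Disjoint (I x) (insert b F) ∧ ∃ p : (gr M).Walk x b, p.IsPath ∧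
        ∀ v ∈ p.support, v = x ∨ v = b ∨ v ∈ I x) ∧
      ∀ x ∈ Dm M w ∩ F, ∀ y ∈ Dm M w ∩ F, x ≠ y → Disjoint (I x) (I y) := by
  classical
  obtain ⟨b, hb, hbF⟩ := hinf.exists_notMem_finite hF
  have hfin : (Dm M w ∩ F).Finite := hF.subset Set.inter_subset_right
  obtain ⟨I, h1, h2, h3⟩ := tks_step hM hw F hF b hb hbF hfin.toFinset (by
    intro x hx
    simpa using hx)
  refine ⟨b, I, hb, hbF, h1, ?_, ?_⟩
  · intro x hx
    exact h2 x (by simpa using hx)
  · intro x hx y hy
    exact h3 x (by simpa using hx) y (by simpa using hy)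

end H90

theorem pf_TKS {C : Type} {c0 : C} : TKS C c0 := by
  classical
  intro M hM hT w hw
  by_contra hfin
  have hinf : (Dm M w).Infinite := hfin
  apply hT
  choose bb II h1 h2 h3 h4 h5 using fun (F : {F : Set ℕ // F.Finite}) =>
    H90.tks_step' hM hw hinf F.1 F.2
  -- the next set of used vertices
  have hnext : ∀ F : {F : Set ℕ // F.Finite},
      (insert (bb F) F.1 ∪ ⋃ x ∈ F.1, II F x).Finite := fun F =>
    (F.2.insert _).union (Set.Finite.biUnion F.2 (fun x _ => h3 F x))
  let FF : ℕ → {F : Set ℕ // F.Finite} := fun n =>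
    Nat.rec ⟨∅, Set.finite_empty⟩ (fun _ F => ⟨_, hnext F⟩) n
  have hFF : ∀ n, (FF (n + 1)).1 = insert (bb (FF n)) (FF n).1 ∪ ⋃ x ∈ (FF n).1, II (FF n) x :=
    fun n => rfl
  have hmono : ∀ m n, m ≤ n → (FF m).1 ⊆ (FF n).1 := by
    intro m n hmn
    induction hmn with
    | refl => exact fun _ h => h
    | step _ ih =>
      intro x hx
      rw [Nat.succ_eq_add_one, hFF]
      exact Or.inl (Or.inr (ih hx))
  let b : ℕ → ℕ := fun n => bb (FF n)
  have hbmem : ∀ i j, i < j → b i ∈ (FF j).1 := by
    intro i j hij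
    apply hmono (i + 1) j hij
    rw [hFF]
    exact Or.inl (Or.inl rfl)
  have hbD : ∀ i, b i ∈ Dm M w := fun i => h1 (FF i)
  have hbn : ∀ i, b i ∉ (FF i).1 := fun i => h2 (FF i)
  have hbi : Function.Injective b := by
    intro i j hij
    rcases lt_trichotomy i j with h | h | h
    · exact absurd (hij ▸ hbmem i j h) (hbn j)
    · exact h
    · exact absurd (hij ▸ hbmem j i h) (hbn i)
  have hI : ∀ i j, i < j → Disjoint (II (FF j) (b i)) (insert (b j) (FF j).1) := fun i j hij =>
    (h4 (FF j) (b i) ⟨hbD i, hbmem i j hij⟩).1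
  have hIF : ∀ i j, i < j → ∀ k, j < k → II (FF j) (b i) ⊆ (FF k).1 := by
    intro i j hij k hjk
    refine Set.Subset.trans ?_ (hmono (j + 1) k hjk)
    rw [hFF]
    intro x hx
    exact Or.inr (Set.mem_biUnion (hbmem i j hij) hx)
  have hp : ∀ i j, i < j → ∃ p : (gr M).Walk (b i) (b j), p.IsPath ∧
      ∀ v ∈ p.support, v = b i ∨ v = b j ∨ v ∈ II (FF j) (b i) := fun i j hij =>
    (h4 (FF j) (b i) ⟨hbD i, hbmem i j hij⟩).2
  let p : ∀ i j : ℕ, (gr M).Walk (b i) (b j) := fun i j =>
    if h : i < j then (hp i j h).choose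
    else if h' : j < i then (hp j i h').choose.reverse
    else SimpleGraph.Walk.nil.copy (rfl : b i = b i) (by
      have : i = j := le_antisymm (not_lt.1 h') (not_lt.1 h)
      rw [this])
  have hpe : ∀ i j, i < j → (p i j).IsPath ∧
      ∀ v ∈ (p i j).support, v = b i ∨ v = b j ∨ v ∈ II (FF j) (b i) := by
    intro i j hij
    have : p i j = (hp i j hij).choose := by simp only [p, dif_pos hij]
    rw [this]
    exact (hp i j hij).choose_spec
  refine ⟨b, p, hbi, fun i j hij => (hpe i j hij).1, ?_, ?_⟩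
  · intro i j hij k hk
    rcases (hpe i j hij).2 (b k) hk with h | h | h
    · exact Or.inl (hbi h)
    · exact Or.inr (hbi h)
    · exfalso
      rcases lt_trichotomy k j with hkj | hkj | hkj
      · exact Set.disjoint_left.1 (hI i j hij) h (Or.inr (hbmem k j hkj))
      · subst hkj
        exact Set.disjoint_left.1 (hI i k hij) h (Or.inl rfl)
      · exact hbn k (hIF i j hij k hkj h)
  · intro i j k l hij hkl hne v hv hv'
    rcases (hpe i j hij).2 v hv with h | h | h
    · exact ⟨i, h⟩
    · exact ⟨j, h⟩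
    rcases (hpe k l hkl).2 v hv' with h' | h' | h'
    · exact ⟨k, h'⟩
    · exact ⟨l, h'⟩
    exfalso
    rcases lt_trichotomy j l with hjl | hjl | hjl
    · exact Set.disjoint_left.1 (hI k l hkl) h' (Or.inr (hIF i j hij l hjl h))
    · subst hjl
      have hik : b i ≠ b k := by
        intro h
        apply hne
        rw [hbi h]
      exact Set.disjoint_left.1 (h5 (FF j) (b i) ⟨hbD i, hbmem i j hij⟩ (b k)
        ⟨hbD k, hbmem k j hkl⟩ hik) h h'
    · exact Set.disjoint_left.1 (hI i j hij) h (Or.inr (hIF k l hkl j hjl h'))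

end Pool.Agent.TK
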