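import Pool.Agent.H16.TK.Stmt2

/-! FINB: only finitely many big components behind a finite tuple. -/

set_option autoImplicit false

open Set

namespace Pool.Agent.TK

namespace H90

/-- transport of connectivity by an isomorphism which preserves `A` -/
lemma conn_iso {C : Type} {M N : St C} {A : Set ℕ} {h : ℕ → ℕ}
    (hE : ∀ u v, M.1 u v = N.1 (h u) (h v)) (hA : ∀ z, h z ∈ A → z ∈ A) {u v : ℕ}
    (H : Conn M A u v) : Conn N A (h u) (h v) := by
  obtain ⟨h1, h2⟩ := H
  induction h2 with
  | refl => exact Conn.refl (fun h' => h1 (hA u h'))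
  | tail hb hs ih =>
    exact ih.step (by rw [← hE]; exact hs.1) (fun h' => hs.2 (hA _ h'))

lemma isoO_symm {C : Type} {M N : St C} {a : List ℕ} (H : IsoO a M N) : IsoO a N M := by
  obtain ⟨h, h1, h2, h3⟩ := H
  refine ⟨h.symm, ?_, ?_, ?_⟩
  · intro z hz
    rw [Equiv.symm_apply_eq, h1 z hz]
  · intro u v
    rw [h2, Equiv.apply_symm_apply, Equiv.apply_symm_apply]
  · intro l
    rw [h3, List.map_map]
    simp

/-- transport of a component by an isomorphism over the marks -/
lemma isoO_cp {C : Type} {M N : St C} {a : List ℕ} (h : Equiv.Perm ℕ)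
    (h1 : ∀ z ∈ a, h z = z) (h2 : ∀ u v, M.1 u v = N.1 (h u) (h v))
    (h3 : ∀ l : List ℕ, M.2 l = N.2 (l.map h)) {D : Set ℕ} (hD : IsCp M (ms a) D) :
    IsCp N (ms a) (h '' D) ∧ FI M a D N a (h '' D) := by
  have h1' : ∀ z ∈ a, h.symm z = z := by
    intro z hz
    rw [Equiv.symm_apply_eq, h1 z hz]
  have hA : ∀ z, h z ∈ ms a → z ∈ ms a := by
    intro z hz
    have := h1' (h z) hz
    rw [Equiv.symm_apply_apply] at this
    rw [this]
    exact hz
  have hA' : ∀ z, h.symm z ∈ ms a → z ∈ ms a := by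
    intro z hz
    have := h1 (h.symm z) hz
    rw [Equiv.apply_symm_apply] at this
    rw [this]
    exact hz
  constructor
  · obtain ⟨v, hv, rfl⟩ := hD
    refine ⟨h v, fun h' => hv (hA v h'), ?_⟩
    apply Set.Subset.antisymm
    · rintro _ ⟨u, hu, rfl⟩
      exact conn_iso h2 hA hu
    · intro u hu
      have := conn_iso (M := N) (N := M) (h := h.symm) (A := ms a) (by
        intro u v
        rw [h2, Equiv.apply_symm_apply, Equiv.apply_symm_apply]) hA' hu
      rw [Equiv.symm_apply_apply] at this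
      exact ⟨h.symm u, this, Equiv.apply_symm_apply _ _⟩
  · refine ⟨h, rfl, h.injective.injOn.bijOn_image, ?_⟩
    intro x hx
    have key : ∀ z ∈ a.zip a ++ x.map (fun z => (z, h z)), z.2 = h z.1 := by
      intro z hz
      rcases List.mem_append.1 hz with hz | hz
      · rw [← dg_eq_zip] at hz
        obtain ⟨e1, e2⟩ := mem_dg.1 hz
        rw [← e1, h1 _ e2]
      · obtain ⟨w, hw, rfl⟩ := List.mem_map.1 hz
        rfl
    refine ⟨?_, ?_, ?_⟩
    · intro z hz w hw
      rw [key z hz, key w hw]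
      exact h.injective.eq_iff.symm
    · intro z hz w hw
      rw [key z hz, key w hw, h2]
    · intro q hq
      rw [h3, List.map_map]
      have e : List.map (⇑h ∘ Prod.fst) q = List.map Prod.snd q :=
        List.map_congr_left (fun z hz => (key z (hq z hz)).symm)
      rw [e]

/-- the set of codes of flaps of one structure with marks `a` -/
def cod {C : Type} (M : St C) (a : List ℕ) : Set (Fl C) := {t | ∃ v, v ∉ a ∧ t = (M, a, v)}

lemma cod_countable {C : Type} (M : St C) (a : List ℕ) : (cod M a).Countable := by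
  refine (Set.countable_range (fun v : ℕ => ((M, a, v) : Fl C))).mono ?_
  rintro t ⟨v, _, rfl⟩
  exact ⟨v, rfl⟩

end H90

theorem pf_FINB {C : Type} [MeasurableSpace C] {c0 : C} (hEXN : EXN C c0) (hRPF : RPF C c0)
    (hMEM : MEM C c0) (hMEA : MEA C c0) : FINB C c0 := by
  classical
  intro X b hX M hM a
  by_contra hfin
  have hinf : {D : Set ℕ | IsCp M (ms a) D ∧ ¬ small c0 b M a D}.Infinite := hfin
  have hMv : Valid c0 M := hX.val M hM
  let D : ℕ → Set ℕ := fun n => hinf.natEmbedding _ n
  have hDi : Function.Injective D := fun i j hij =>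
    (hinf.natEmbedding _).injective (Subtype.ext hij)
  have hDc : ∀ n, IsCp M (ms a) (D n) := fun n => (hinf.natEmbedding _ n).2.1
  have hDs : ∀ n, ¬ small c0 b M a (D n) := fun n => (hinf.natEmbedding _ n).2.2
  -- the structures `R i`
  let TT := {T : Set (Fl C) // T.Countable ∧ ∀ t ∈ T, Valid c0 t.1 ∧ t.2.2 ∉ t.2.1}
  choose E hE1 hE2 hE3 hE4 hE5 using fun (i : ℕ) (T : TT) =>
    hEXN X b hX M hM a (D i) (hDc i) (hDs i) T.1 T.2.1 T.2.2
  have hadd : ∀ (i : ℕ) (T : TT), (T.1 ∪ H90.cod (E i T) a).Countable ∧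
      ∀ t ∈ T.1 ∪ H90.cod (E i T) a, Valid c0 t.1 ∧ t.2.2 ∉ t.2.1 := by
    intro i T
    refine ⟨T.2.1.union (H90.cod_countable _ _), ?_⟩
    rintro t (ht | ⟨v, hv, rfl⟩)
    · exact T.2.2 t ht
    · exact ⟨hE1 i T, hv⟩
  let F : ℕ → TT := fun n => Nat.rec
    ⟨H90.cod M a, H90.cod_countable M a, by rintro t ⟨v, hv, rfl⟩; exact ⟨hMv, hv⟩⟩
    (fun i T => ⟨_, hadd i T⟩) n
  have hF : ∀ n, (F (n + 1)).1 = (F n).1 ∪ H90.cod (E n (F n)) a := fun n => rfl
  have hF0 : ∀ n, H90.cod M a ⊆ (F n).1 := by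
    intro n
    induction n with
    | zero => exact fun _ h => h
    | succ n ih => rw [hF]; exact fun t ht => Or.inl (ih ht)
  have hmono : ∀ m n, m ≤ n → (F m).1 ⊆ (F n).1 := by
    intro m n hmn
    induction hmn with
    | refl => exact fun _ h => h
    | step _ ih =>
      intro x hx
      rw [Nat.succ_eq_add_one, hF]
      exact Or.inl (ih hx)
  let R : ℕ → St C := fun n => E n (F n)
  have hFR : ∀ i j, i < j → H90.cod (R i) a ⊆ (F j).1 := by
    intro i j hij
    refine Set.Subset.trans ?_ (hmono (i + 1) j hij)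
    rw [hF]
    exact fun t ht => Or.inr ht
  have hdisj : ∀ i j, i ≠ j → Disjoint (D i) (D j) := by
    intro i j hij
    rw [Set.disjoint_left]
    intro x hx hx'
    exact hij (hDi ((hDc i).eq_of_inter hMv (hDc j) hx hx'))
  have hRD : ∀ y : Set ℕ, RD c0 M (fun _ => a) D R y := by
    intro y
    refine ⟨hMv, fun i _ => hE1 i (F i), fun i _ => hDc i, fun i _ => hE2 i (F i),
      fun i _ => hE3 i (F i), fun i _ j _ hij => hdisj i j hij, fun i _ j _ => (hDc j).disj.symm⟩
  -- new flaps
  have hnewM : ∀ i D', IsCp M (ms a) D' → ¬ FI (R i) a (D i) M a D' := by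
    rintro i D' ⟨v, hv, rfl⟩ hFI
    exact hE5 i (F i) (M, a, v) (hF0 i ⟨v, hv, rfl⟩) hFI
  have hnewR : ∀ i j, j < i → ¬ FI (R i) a (D i) (R j) a (D j) := by
    intro i j hij hFI
    obtain ⟨v, hv, hvD⟩ := hE2 j (F j)
    have hs : Fl.set ((R j, a, v) : Fl C) = D j := hvD.symm
    refine hE5 i (F i) (R j, a, v) (hFR j i hij ⟨v, hv, rfl⟩) ?_
    rw [hs]
    exact hFI
  have hnewR' : ∀ i j, i ≠ j → ¬ FI (R i) a (D i) (R j) a (D j) := by
    intro i j hij hFI
    rcases lt_or_gt_of_ne hij with h | h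
    · exact hnewR j i h hFI.symm
    · exact hnewR i j h hFI
  -- decoding
  have main : ∀ y z : Set ℕ, IsoO a (repl c0 M (fun _ => a) D R y)
      (repl c0 M (fun _ => a) D R z) → y ⊆ z := by
    intro y z hyz i hi
    by_contra hiz
    obtain ⟨h, h1, h2, h3⟩ := hyz
    obtain ⟨_, _, _, _, _, hyc, hyF⟩ := hRPF M (fun _ => a) D R y (hRD y)
    obtain ⟨hNv, hNg, hNl, _, _, hzc, hzF⟩ := hRPF M (fun _ => a) D R z (hRD z)
    set N := repl c0 M (fun _ => a) D R z with hN
    obtain ⟨hc, hf⟩ := H90.isoO_cp h h1 h2 h3 (hyc i hi)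
    have hRE : FI (R i) a (D i) N a (h '' D i) := ((hyF i hi).symm).trans hf
    set E' := h '' D i with hE'
    by_cases hmeet : ∃ j ∈ z, ∃ x ∈ E', x ∈ D j
    · obtain ⟨j, hj, x, hx, hxj⟩ := hmeet
      have heq : E' = D j := hc.eq_of_inter hNv (hzc j hj) hx hxj
      rw [heq] at hRE
      refine hnewR' i j ?_ (hRE.trans (hzF j hj))
      rintro rfl
      exact hiz hj
    · push Not at hmeet
      have hout : ∀ x ∈ E', ∀ j ∈ z, x ∉ D j := fun x hx j hj => hmeet j hj x hx
      have houta : ∀ x ∈ a, ∀ j ∈ z, x ∉ D j := fun x hx j _ hxj =>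
        Set.disjoint_left.1 (hDc j).disj hxj hx
      have hcM : IsCp M (ms a) E' := by
        rw [isCp_iff hMv]
        obtain ⟨g1, g2, g3⟩ := (isCp_iff hNv).1 hc
        refine ⟨⟨g1.1, ?_⟩, g2, ?_⟩
        · intro u hu v hv
          obtain ⟨q1, q2⟩ := g1.2 u hu v hv
          have : ∀ v, Relation.ReflTransGen (fun x y => N.1 x y = true ∧ y ∉ E'ᶜ) u v →
              v ∈ E' ∧ Relation.ReflTransGen (fun x y => M.1 x y = true ∧ y ∉ E'ᶜ) u v := by
            intro v hv
            induction hv with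
            | refl => exact ⟨hu, Relation.ReflTransGen.refl⟩
            | tail hb hs ih =>
              rename_i p q
              have hq : q ∈ E' := by simpa using hs.2
              refine ⟨hq, ih.2.tail ⟨?_, hs.2⟩⟩
              rw [← hNg p q (hout p ih.1) (hout q hq)]
              exact hs.1
          exact ⟨q1, (this v q2).2⟩
        · rintro u ⟨hu, s, hs, hus⟩
          by_cases huD : ∃ j ∈ z, u ∈ D j
          · exfalso
            obtain ⟨j, hj, huj⟩ := huD
            have hsj : s ∉ D j := hout s hs j hj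
            have : s ∈ Nb M (D j) := ⟨hsj, u, huj, by rw [hMv.1]; exact hus⟩
            exact Set.disjoint_left.1 hc.disj hs ((hDc j).nb hMv this)
          · push Not at huD
            apply g3
            refine ⟨hu, s, hs, ?_⟩
            rw [hNg u s huD (hout s hs)]
            exact hus
      have hFI' : FI N a E' M a E' := by
        refine ⟨id, rfl, Set.bijOn_id _, ?_⟩
        intro x hx
        have key : ∀ w ∈ a.zip a ++ x.map (fun z => (z, id z)), w.1 = w.2 ∧
            ∀ j ∈ z, w.1 ∉ D j := by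
          intro w hw
          rcases List.mem_append.1 hw with hw | hw
          · rw [← dg_eq_zip] at hw
            obtain ⟨e1, e2⟩ := mem_dg.1 hw
            exact ⟨e1, houta _ e2⟩
          · obtain ⟨u, hu, rfl⟩ := List.mem_map.1 hw
            exact ⟨rfl, hout _ (hx u hu)⟩
        refine ⟨?_, ?_, ?_⟩
        · intro u hu v hv
          rw [(key u hu).1, (key v hv).1]
        · intro u hu v hv
          rw [hNg _ _ (key u hu).2 (key v hv).2, (key u hu).1, (key v hv).1]
        · intro q hq
          rw [← List.map_congr_left (fun z hz => (key z (hq z hz)).1)]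
          apply hNl
          intro u hu
          obtain ⟨w, hw, rfl⟩ := List.mem_map.1 hu
          exact (key w (hq w hw)).2
      exact hnewM i E' hcM (hRE.trans hFI')
  -- the perfect family
  obtain ⟨x, x', hne, hiso⟩ := hX.nf
    (fun x => repl c0 M (fun _ => a) D R {i | x i = true}) a
    (hMEA M (fun _ => a) D R (hRD univ) (fun x => {i | x i = true}) (fun i => by
      have : {x : ℕ → Bool | i ∈ {i | x i = true}} = (fun x : ℕ → Bool => x i) ⁻¹' {true} := rfl
      rw [this]
      exact measurable_pi_apply i (measurableSet_singleton true)))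
    (fun x => hMEM X b hX.val hX.cl M hM (fun _ => a) D R _ (hRD _)
      (fun i _ => hE4 i (F i)))
  apply hne
  have s1 := main _ _ hiso
  have s2 := main _ _ (H90.isoO_symm hiso)
  funext i
  by_cases hi : x i = true
  · rw [hi]
    exact (s1 hi).symm
  · by_cases hi' : x' i = true
    · exact absurd (s2 hi') hi
    · rw [Bool.not_eq_true] at hi hi'
      rw [hi, hi']

end Pool.Agent.TK
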